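import Pool.Agent.W792.WA.Stm6
import Pool.Agent.W191.LL.Avg0

/-! WA6-WD: hopping amplitudes of one level. -/

namespace Pool.Agent.W410.WA.WD

open MeasureTheory Filter Pool.Agent.W792.LL Pool.Agent.W792.WA Pool.Agent.W191.LL UnitAddTorus
open scoped Topology

noncomputable section

lemma four_ph {d : ℕ} (M : ℕ) (j : ℤ) (k : UnitAddTorus (Fin d)) :
    (fourier j (ph d M k) : ℂ) = Complex.exp (Complex.I * ((j * M : ℝ) : ℂ) * lap d k) := by
  unfold ph
  rw [fourier_coe_apply]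
  congr 1
  have : (Real.pi : ℂ) ≠ 0 := by exact_mod_cast Real.pi_ne_zero
  push_cast
  field_simp

theorem main : S_KC → S_WD := by
  intro hKC d ψ hd hsum
  obtain ⟨C, hC, hbd⟩ := hKC d hd
  let ψc : C(UnitAddCircle, ℂ) := ⟨fun t => ((ψ t : ℝ) : ℂ), by fun_prop⟩
  set c : ℤ → ℂ := fourierCoeff ψc with hc
  have hsn : Summable fun h => ‖c h‖ := hsum
  have hs : Summable c := hsn.of_norm
  set S : ℝ := ∑' h, ‖c h‖ with hS
  have hS0 : 0 ≤ S := tsum_nonneg fun h => norm_nonneg _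
  refine ⟨S * C + 1, by positivity, fun M x => ?_⟩
  set B : ℝ := (1 + ‖x‖) ^ ((d : ℝ) / 3) with hB
  have hBp : 0 < B := by rw [hB]; positivity
  -- the terms
  let F : ℤ → UnitAddTorus (Fin d) → ℂ := fun h t =>
    mFourier (-x) t * (c h * fourier h (ph d M t))
  have hFcont : ∀ h, Continuous fun t : UnitAddTorus (Fin d) =>
      c h * (fourier h (ph d M t) : ℂ) := fun h =>
    continuous_const.mul ((fourier h).continuous.comp (ph_cont d M))
  have hFint : ∀ h, Integrable (F h) (mu d) := fun h => mfc_int _ (hFcont h) _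
  have hFn : ∀ h t, ‖F h t‖ ≤ ‖c h‖ := by
    intro h t
    have h1 := mf_norm (-x) t
    have h2 : ‖(fourier h (ph d M t) : ℂ)‖ = 1 := by
      simp [fourier_apply]
    calc ‖F h t‖ = ‖mFourier (-x) t‖ * (‖c h‖ * ‖(fourier h (ph d M t) : ℂ)‖) := by
          rw [← norm_mul, ← norm_mul]
      _ = ‖mFourier (-x) t‖ * ‖c h‖ := by rw [h2, mul_one]
      _ ≤ 1 * ‖c h‖ := mul_le_mul_of_nonneg_right h1 (norm_nonneg _)
      _ = _ := one_mul _
  have hFs : Summable fun h => ∫ a, ‖F h a‖ ∂(mu d) := by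
    refine Summable.of_nonneg_of_le (fun h => integral_nonneg fun a => norm_nonneg _)
      (fun h => ?_) hsn
    calc ∫ a, ‖F h a‖ ∂(mu d) ≤ ∫ _a, ‖c h‖ ∂(mu d) :=
          integral_mono (hFint h).norm (integrable_const _) (hFn h)
      _ = ‖c h‖ := by simp
  have key := hasSum_integral_of_summable_integral_norm hFint hFs
  have e1 : ∀ t, ∑' h, F h t = mFourier (-x) t * ((ψ (ph d M t) : ℝ) : ℂ) := by
    intro t
    have h1 := has_pointwise_sum_fourier_series_of_summable (f := ψc) hs (ph d M t)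
    have h2 := h1.mul_left (mFourier (-x) t)
    exact h2.tsum_eq
  have e2 : ∫ a, ∑' h, F h a ∂(mu d) =
      mFourierCoeff (fun k : UnitAddTorus (Fin d) =>
        ((ψ ((M * lap d k / (2 * Real.pi) : ℝ) : UnitAddCircle) : ℝ) : ℂ)) x := by
    rw [mfc_eq]
    congr 1
    funext t
    exact e1 t
  rw [e2] at key
  have e3 : ∀ h, ‖∫ a, F h a ∂(mu d)‖ ≤ ‖c h‖ * (C / B) := by
    intro h
    have h1 : ∫ a, F h a ∂(mu d) = c h * mFourierCoeff (fun k : UnitAddTorus (Fin d) =>
        Complex.exp (Complex.I * ((h * M : ℝ) : ℂ) * lap d k)) x := by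
      rw [← mfc_smul, mfc_eq]
      congr 1
      funext t
      rw [← four_ph]
    rw [h1, norm_mul]
    exact mul_le_mul_of_nonneg_left (hbd _ x) (norm_nonneg _)
  have e4 : Summable fun h => ‖c h‖ * (C / B) := hsn.mul_right _
  rw [← key.tsum_eq]
  calc ‖∑' h, ∫ a, F h a ∂(mu d)‖ ≤ ∑' h, ‖c h‖ * (C / B) :=
        tsum_of_norm_bounded e4.hasSum e3
    _ = S * (C / B) := by rw [tsum_mul_right]
    _ = (S * C) / B := by ring
    _ ≤ (S * C + 1) / B := by gcongr; linarith

end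

end Pool.Agent.W410.WA.WD
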